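import Mathlib
import Pool.Agent.Q147.Reflexive

/-!
# MP_0995d8_gt : the integers with the Bohr topology are not a continuous homomorphic image of a
reflexive precompact group
-/

namespace Pool.Agent.Results.MP_0995d8_gt.BohrIntegers

open Pool.Agent.Q147.Reflexive

universe u

/-- There is a Hausdorff precompact abelian group `H` (algebraically `ℤ`) such that no reflexive
precompact abelian group (not even a precompact abelian group `G` with continuous evaluation map
`α_G`) admits a continuous homomorphism onto `H`. -/
theorem result : ∃ (H : Type) (_ : AddCommGroup H) (_ : TopologicalSpace H),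
    IsTopologicalAddGroup H ∧ T2Space H ∧ Precompact H ∧ Nonempty (H ≃+ ℤ) ∧
    (∀ (G : Type u) [AddCommGroup G] [TopologicalSpace G] [IsTopologicalAddGroup G] [T2Space G],
      Precompact G → IsReflexive G → ¬ ∃ π : G →ₜ+ H, Function.Surjective π) ∧
    (∀ (G : Type u) [AddCommGroup G] [TopologicalSpace G] [IsTopologicalAddGroup G] [T2Space G],
      Precompact G → Continuous (alpha G) → ¬ ∃ π : G →ₜ+ H, Function.Surjective π) := by
  refine ⟨ZB, inferInstance, inferInstance, inferInstance, inferInstance, precompact_ZB,
    ⟨AddEquiv.refl ℤ⟩, ?_, ?_⟩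
  · rintro G _ _ _ _ hG hR ⟨π, hπ⟩
    exact ZB_no_surjection hG hR.continuous π hπ
  · rintro G _ _ _ _ hG hα ⟨π, hπ⟩
    exact ZB_no_surjection hG hα π hπ

end Pool.Agent.Results.MP_0995d8_gt.BohrIntegers
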